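import Pool.Agent.R936.Arb.Fin
import Pool.Agent.R936.Arb.Pred

/-!
# Two systems of classes on products with an arbitrary factor
-/

set_option linter.unusedVariables false
set_option linter.unusedSectionVars false

open CategoryTheory AlgebraicGeometry TensorProduct

universe u v w

namespace Pool.Agent.R936.Two

open Pool.Agent.H914 Pool.Agent.W534 VarClass Obj WeilCohomology Module
open Pool.Agent.Y121
open Pool.Agent.Y163 (HBasis)
open Pool.Agent.H281R3.HT
open Pool.Agent.R940 (CMB csH csH_smul csH_map csH_em csH_gr csH_inj HSub em_HSub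
  cs_ind cs_tmul type_bound deg_eq repr_zero em_SG mem_of_SG pq_top SG SG_ind)
open Pool.Agent.R936.Hel
open Pool.Agent.R936.Hel2 (BB CC pt wt st st_cons csH_lwf lwf_type wt_sum rel_iff st_eq pt_nonneg
  st_nonneg st_add WB exists_WB csH_tr type_of_tr clL HG st_dual algCl)
open Pool.Agent.R936.Per (Fix hodge_desc HC KC dual_letter')
open Pool.Agent.R936.Arb

variable {k : Type u} [Field k] {𝒱 : VarClass k} {ops : CycleOps 𝒱}
variable {T : AH.HodgeTheory ops} {Y Z P : 𝒱.Obj} {L : Type} [Field L] [Algebra T.W.K L]
  {I : Type w} {X : I → 𝒱.Obj} {ι : I → Type}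

lemma SG_mono' {G G' : Submodule T.W.K (T.W.H Y)} (h : G ≤ G') {x : (baseW T.W L).H Y}
    (hx : x ∈ SG L G) : x ∈ SG L G' :=
  SG_ind (P := fun x => x ∈ SG L G') (Submodule.zero_mem _)
    (fun _ _ => Submodule.add_mem _) (fun _ _ => Submodule.smul_mem _ _)
    (fun a ha => em_SG (h ha)) hx

section

variable (hpos : ∀ (Y : 𝒱.Obj) (p q : ℤ), p < 0 ∨ q < 0 → T.pq Y p q = ⊥)

variable (M : ∀ i, CMB T (X i) L (ι i))

include hpos in
/-- **Two systems of classes on products with an arbitrary factor.** -/
theorem two_arb [∀ i, Finite (ι i)] (σ₀ : L →ₐ[T.W.K] ℂ) {G A : Cl T.W}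
    (hAG : ∀ Y, A.C Y ≤ G.C Y)
    (hAlg : ∀ R : Multiset (Σ i, ι i), toZ R ∈ Hel.Rel (wt M) 0 → AlgS (clL A L) (BB M) R)
    {i0 : I} {L' : List I}
    (hb : ∀ R : Multiset (Σ i, ι i), (∀ σ, |lam (wt M) R σ| ≤ (Z.dim : ℕ)) →
      ∃ b : List (Σ i, ι i), b.map Sigma.fst = i0 :: L' ∧ lamL (wt M) b = lam (wt M) R)
    (hZ : G.C (Z.prod (Hel.prodOf X i0 L')) ≤ A.C (Z.prod (Hel.prodOf X i0 L'))) (i : I)
    (Lst : List I) {J : ℕ} {c : T.W.H (Z.prod (Hel.prodOf X i Lst))} (hc : AH.IsHodge T _ J c)
    (hcG : c ∈ G.C (Z.prod (Hel.prodOf X i Lst))) : c ∈ A.C (Z.prod (Hel.prodOf X i Lst)) := by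
  classical
  have hx : AH.em T.W L c ∈ (clL G L).C (Z.prod (Hel.prodOf X i Lst)) := em_SG hcG
  obtain ⟨κ, hκ, N, hN⟩ := exists_WB (ops := ops) (X := X) (ι := ι) Lst i
  cases nonempty_fintype κ
  obtain ⟨b, hb'⟩ := hN _ (BB M)
  obtain ⟨z, hz⟩ := exists_dec (W := baseW T.W L) b (AH.em T.W L c)
  have hz' : AH.em T.W L c = ∑ a, zw (z a) (lwf (BB M) (N a)) := by
    rw [hz]
    exact Finset.sum_congr rfl fun a _ => by rw [hb']
  obtain ⟨g, hg⟩ := Pool.Agent.R936.Arb.exists_dual (W := baseW T.W L) b
  refine mem_of_SG (L := L) ?_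
  rw [hz']
  refine Submodule.sum_mem _ fun a _ => ?_
  by_cases hz0 : z a = 0
  · rw [hz0, zw_zero]
    exact Submodule.zero_mem _
  · show zw (z a) (lwf (BB M) (N a)) ∈ (clL A L).C _
    have htype := fun σ => comp_types hpos M hN hc hz' a σ
    obtain ⟨b1, hb1, hb2⟩ := hb (↑((N a).map Sigma.fst)) (fun σ => by
      have h0 : csH σ Z (z a) ≠ 0 := fun h => hz0 (csH_inj σ (h.trans (map_zero _).symm))
      obtain ⟨h1, h2, h3, h4⟩ := type_le_dim hpos (htype σ) h0
      rw [lam_eq, abs_le]
      constructor <;> omega)
    match b1, hb1, hb2 with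
    | l :: b2, hb1, hb2 =>
      rw [List.map_cons] at hb1
      obtain ⟨h1, h2⟩ := List.cons.inj hb1
      subst h1
      subst h2
      obtain ⟨C, hC1, hC2, _⟩ := isCan_prod' (BB M) b2 l
      have hwt : ∀ σ, st M σ true (N a) - st M σ false (N a) =
          st M σ true C - st M σ false C := by
        intro σ
        rw [← lam_eq, ← hb2, ← lam_eq, hC1, lamL_coe]
      -- complementary words
      let Co : κ → κ → Prop := fun m a' => ∀ σ e, st M σ e (N m) + st M σ e (N a') =
        (Hel.prodOf X i Lst).dim
      have hCo : ∀ m a', (baseW T.W L).tr _ (b a' * b m) ≠ 0 → Co m a' := by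
        intro m a' h σ e
        rw [hb', hb'] at h
        rw [add_comm]
        exact st_dual M hpos h σ e
      let u : (baseW T.W L).H (Hel.prodOf X i Lst) :=
        ∑ m ∈ Finset.univ.filter (fun m => Co m a), g m a • b m
      -- the degree of `u`
      have hdeg : ∀ m, Co m a → ((N m).map fun y => dg (BB M) y.1).sum =
          2 * (Hel.prodOf X i Lst).dim - ((N a).map fun y => dg (BB M) y.1).sum := by
        intro m hm
        have h1 := hm σ₀ true
        have h2 := hm σ₀ false
        have h3 := st_add M hpos σ₀ (N m)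
        have h4 := st_add M hpos σ₀ (N a)
        have h5 : ((N m).map fun y => dg (BB M) y.1).sum =
          ((N m).map fun y => (M y.1.1).B.deg y.1.2).sum := rfl
        have h6 : ((N a).map fun y => dg (BB M) y.1).sum =
          ((N a).map fun y => (M y.1.1).B.deg y.1.2).sum := rfl
        rw [h5, h6]
        omega
      have hu : u ∈ (baseW T.W L).gr _
          (2 * (Hel.prodOf X i Lst).dim - ((N a).map fun y => dg (BB M) y.1).sum) := by
        refine Submodule.sum_mem _ fun m hm => Submodule.smul_mem _ _ ?_
        rw [← hdeg m (Finset.mem_filter.1 hm).2, hb']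
        exact lwf_gr _
      have htr : ∀ a', (baseW T.W L).tr _ (b a' * u) = if a' = a then 1 else 0 := by
        intro a'
        by_cases hsame : ∀ σ e, st M σ e (N a') = st M σ e (N a)
        · rw [← hg a a']
          show (baseW T.W L).tr _ (b a' *
            ∑ m ∈ Finset.univ.filter (fun m => Co m a), g m a • b m) = _
          rw [Finset.mul_sum, map_sum, Finset.mul_sum, map_sum, Finset.sum_filter]
          refine Finset.sum_congr rfl fun m _ => ?_
          split_ifs with h
          · rfl
          · rw [mul_smul_comm, map_smul]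
            by_cases h0 : (baseW T.W L).tr _ (b a' * b m) = 0
            · rw [h0, smul_zero]
            · exfalso
              apply h
              intro σ e
              rw [← hsame σ e]
              exact hCo m a' h0 σ e
        · have hne : a' ≠ a := by
            rintro rfl
            exact hsame fun _ _ => rfl
          rw [if_neg hne]
          show (baseW T.W L).tr _ (b a' *
            ∑ m ∈ Finset.univ.filter (fun m => Co m a), g m a • b m) = _
          rw [Finset.mul_sum, map_sum]
          refine Finset.sum_eq_zero fun m hm => ?_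
          rw [mul_smul_comm, map_smul]
          by_cases h0 : (baseW T.W L).tr _ (b a' * b m) = 0
          · rw [h0, smul_zero]
          · exfalso
            apply hsame
            intro σ e
            have h1 := hCo m a' h0 σ e
            have h2 := (Finset.mem_filter.1 hm).2 σ e
            omega
      have hword : zw u (lwf (BB M) C) ∈ (clL G L).C _ := by
        show zw (∑ m ∈ Finset.univ.filter (fun m => Co m a), g m a • b m) (lwf (BB M) C) ∈ _
        rw [zw_sum]
        refine Submodule.sum_mem _ fun m hm => ?_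
        rw [zw_smul, hb', zw_lwf]
        refine Submodule.smul_mem _ _ (SG_mono' (hAG _) (hAlg _ ?_ _ _ rfl))
        rw [rel_iff]
        intro σ
        rw [st_eq, st_eq, st, st, List.map_append, List.map_append, List.sum_append,
          List.sum_append]
        have e1 : ∀ e, ((pull (fst (Hel.prodOf X i Lst) (Hel.prodOf X l.1 (b2.map Sigma.fst)))
            (N m)).map fun y => pt M σ e y.1).sum = st M σ e (N m) := by
          intro e
          rw [pull, List.map_map]
          rfl
        have e2 : ∀ e, ((pull (snd (Hel.prodOf X i Lst) (Hel.prodOf X l.1 (b2.map Sigma.fst)))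
            C).map fun y => pt M σ e y.1).sum = st M σ e C := by
          intro e
          rw [pull, List.map_map]
          rfl
        rw [e1, e1, e2, e2]
        have h1 := (Finset.mem_filter.1 hm).2 σ true
        have h2 := (Finset.mem_filter.1 hm).2 σ false
        have h3 := hwt σ
        omega
      have h5 := contr_mem (clL G L) hx hword
      rw [hz', contr_sum] at h5
      have h6 : ∑ a', contr (zw (z a') (lwf (BB M) (N a'))) (zw u (lwf (BB M) C)) =
          zw (z a) (lwf (BB M) C) := by
        rw [Finset.sum_eq_single a]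
        · rw [contr_zw (lwf_gr _) hu, ← hb', htr, if_pos rfl, one_smul]
        · intro a' _ hne
          rw [contr_zw (lwf_gr _) hu, ← hb', htr, if_neg hne, zero_smul]
        · intro h
          exact absurd (Finset.mem_univ _) h
      rw [h6] at h5
      have hmem : zw (z a) (lwf (BB M) C) ∈ (clL A L).C _ := SG_mono' hZ h5
      -- the dual word
      obtain ⟨κ', hκ', N', hN'⟩ := exists_WB (ops := ops) (X := X) (ι := ι) (b2.map Sigma.fst) l.1
      obtain ⟨b', hb''⟩ := hN' _ (BB M)
      obtain ⟨m, hm⟩ := exists_dualv b' hC2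
      rw [hb''] at hm
      have hdual := fun σ b => st_dual M hpos hm σ b
      have hword' : zw (lwf (BB M) (N' m)) (lwf (BB M) (N a)) ∈ (clL A L).C _ := by
        rw [zw_lwf]
        refine hAlg _ ?_ _ _ rfl
        rw [rel_iff]
        intro σ
        rw [st_eq, st_eq, st, st, List.map_append, List.map_append, List.sum_append,
          List.sum_append]
        have e1 : ∀ b, ((pull (fst (Hel.prodOf X l.1 (b2.map Sigma.fst)) (Hel.prodOf X i Lst))
            (N' m)).map fun y => pt M σ b y.1).sum = st M σ b (N' m) := by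
          intro b
          rw [pull, List.map_map]
          rfl
        have e2 : ∀ b, ((pull (snd (Hel.prodOf X l.1 (b2.map Sigma.fst)) (Hel.prodOf X i Lst))
            (N a)).map fun y => pt M σ b y.1).sum = st M σ b (N a) := by
          intro b
          rw [pull, List.map_map]
          rfl
        rw [e1, e1, e2, e2]
        have h1 := hdual σ true
        have h2 := hdual σ false
        have h3 := hwt σ
        omega
      have h7 := contr_mem (clL A L) hmem hword'
      rw [contr_zw (lwf_gr _) (lwf_gr _)] at h7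
      have h8 := Submodule.smul_mem _ ((baseW T.W L).tr _ (lwf (BB M) C * lwf (BB M) (N' m)))⁻¹ h7
      rwa [smul_smul, inv_mul_cancel₀ hm, one_smul] at h8

end

end Pool.Agent.R936.Two
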