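import Pool.Agent.R936.Two.Two
import Pool.Agent.R936.Two.Defs

/-!
# Algebraicity of absolutely Hodge classes on products with an arbitrary factor
-/

set_option linter.unusedVariables false
set_option linter.unusedSectionVars false

open CategoryTheory AlgebraicGeometry TensorProduct

universe u v w

namespace Pool.Agent.R936.Two

open Pool.Agent.H914 Pool.Agent.W534 VarClass Obj WeilCohomology Module
open Pool.Agent
open Pool.Agent.Y121 Pool.Agent.Y121.AHS
open Pool.Agent.Y163 (HBasis)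
open Pool.Agent.H281R3.HT
open Pool.Agent.Y133.Half (ClassPred spanCycles_of_algSpan)
open Pool.Agent.W536.RR (cl_mem_algSpan)
open Pool.Agent.R940 (CMB csH csH_smul csH_map csH_em csH_gr csH_inj HSub em_HSub
  cs_ind cs_tmul type_bound deg_eq repr_zero em_SG mem_of_SG pq_top SG SG_ind
  NonnegTypes IsCM HodgeConj exists_cycle)
open Pool.Agent.R936
open Pool.Agent.R936.Hel (Cl toZ Lt IsCan isCan_prod' lwf)
open Pool.Agent.R936.Hel2 (BB CC opL pt wt st rank_le HG HodgeGroupDimLe IsFactorBound Few prodOf_eq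
  hodge_red algCl clL)
open Pool.Agent.R936.Per (Fix HC KC dual_letter' exists_cmb')
open Pool.Agent.R936.Arb

variable {k : Type u} [Field k] {𝒱 : VarClass k} {ops : CycleOps 𝒱} {I : Type w} {X : I → 𝒱.Obj}

section AH

variable {T : AH.HodgeTheory ops}

theorem exists_uniT [Nonempty I]
    (hpos : ∀ (Y : 𝒱.Obj) (p q : ℤ), p < 0 ∨ q < 0 → T.pq Y p q = ⊥)
    {f : ∀ i, T.W.H (X i) →ₗ[T.W.K] T.W.H (X i)} (hf : ∀ i, Squarefree (LinearMap.charpoly (f i)))
    (hgr : ∀ i, ∀ j, ∀ x ∈ T.W.gr (X i) j, f i x ∈ T.W.gr (X i) j)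
    (hpq : ∀ i, ∀ (p q : ℤ), ∀ x : HC T (X i), x ∈ T.pq (X i) p q →
      opL ℂ (f i) x ∈ T.pq (X i) p q)
    {R : ℕ} {E : Fin R → ∀ i, (T.W.H (X i) →ₗ[T.W.K] T.W.H (X i))} {z : Fin R → ℂ}
    (hE : ∀ (i : I) (p q : ℤ) (x : (baseW T.W ℂ).H (X i)), x ∈ T.pq (X i) p q →
      ∑ j, (show (baseW T.W ℂ).K from z j) • opL ℂ (E j i) x =
        (show (baseW T.W ℂ).K from ((p - q : ℤ) : ℂ)) • x) :
    ∃ (i0 : I) (L0 : List I),
      ∀ (G A : Cl T.W), (∀ Y, A.C Y ≤ G.C Y) → (∀ i L, HG A (Hel.prodOf X i L)) →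
        ∀ (Z : 𝒱.Obj), G.C (Z.prod (Hel.prodOf X i0 (powL L0 i0 Z.dim))) ≤
            A.C (Z.prod (Hel.prodOf X i0 (powL L0 i0 Z.dim))) →
          ∀ i Lst J (c : T.W.H (Z.prod (Hel.prodOf X i Lst))), AH.IsHodge T _ J c →
            c ∈ G.C (Z.prod (Hel.prodOf X i Lst)) → c ∈ A.C (Z.prod (Hel.prodOf X i Lst)) := by
  classical
  obtain ⟨i1⟩ := ‹Nonempty I›
  let L := AlgebraicClosure T.W.K
  have hchar : CharZero L := charZero_of_injective_algebraMap (algebraMap T.W.K L).injective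
  let σ₀ : L →ₐ[T.W.K] ℂ := IsAlgClosed.lift
  have hfix : Fix T L := by
    intro x hx
    have h1 := (InfiniteGalois.mem_bot_iff_fixed (k := T.W.K) (K := L) x).2 fun τ => hx τ
    exact IntermediateField.mem_bot.1 h1
  have hM := fun i : I => exists_cmb' (T := T) (X := X i) (L := L) (f := f i) (hf i) (hgr i)
      (fun p q x hx => hpq i p q x hx) (IsAlgClosed.splits _)
  choose M μ hμ hMμ using hM
  rcases isEmpty_or_nonempty (Σ i, Fin (finrank T.W.K (T.W.H (X i)))) with hem | ⟨⟨l0⟩⟩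
  · -- no letters
    have h0 : ∀ (Z : 𝒱.Obj) i Lst (c : T.W.H (Z.prod (Hel.prodOf X i Lst))), c = 0 := by
      intro Z i Lst c
      obtain ⟨g⟩ := exists_pr X Lst i
      have h1 : (1 : T.W.H (X i)) = 0 := by
        apply AH.em_injective (W := T.W) (L := L)
        have h2 := (M i).B.b.sum_repr (AH.em T.W L 1)
        rw [← h2]
        exact Finset.sum_eq_zero fun a _ => (hem.false ⟨i, a⟩).elim
      have h2 : (1 : T.W.H (Z.prod (Hel.prodOf X i Lst))) = 0 := by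
        have h3 := congrArg (T.W.map (snd Z _ ≫ g)) h1
        rwa [map_one, map_zero] at h3
      rw [← mul_one c, h2, mul_zero]
    refine ⟨i1, [], fun G A _ _ Z _ i Lst j c _ _ => ?_⟩
    rw [h0 _ _ _ c]
    exact Submodule.zero_mem _
  -- dual letters
  have hd := fun l : (Σ i, Fin (finrank T.W.K (T.W.H (X i)))) => dual_letter' (M := M) hpos l
  choose st' hst1 hst2 using hd
  have hst : ∀ l, Hel2.wt M (st' l) = - Hel2.wt M l := by
    intro l
    funext σ
    have h1 := hst2 l σ true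
    have h2 := hst2 l σ false
    rw [Pi.neg_apply, Hel2.wt, Hel2.wt]
    omega
  -- letters of degree zero
  have hz : ∀ l : (Σ i, Fin (finrank T.W.K (T.W.H (X i)))), HasZ (Hel2.wt M) l.1 := by
    intro l
    by_contra hcon
    have h1 : ∀ a, (M l.1).B.deg a ≠ 0 := by
      intro a ha
      apply hcon
      refine ⟨a, ?_⟩
      funext σ
      obtain ⟨h1, h2, h3⟩ := deg_eq (M l.1) hpos σ a
      rw [ha, Nat.cast_zero] at h1
      have h4 : pt M σ true ⟨l.1, a⟩ = (M l.1).p σ a := rfl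
      have h5 : pt M σ false ⟨l.1, a⟩ = (M l.1).q σ a := rfl
      rw [Hel2.wt, h4, h5, Pi.zero_apply]
      omega
    have h2 : ∀ a, (M l.1).B.b.repr (1 : (baseW T.W L).H (X l.1)) a = 0 := fun a =>
      repr_zero ((baseW T.W L).isInternal (X l.1)).submodule_iSupIndep (M l.1).B.b
        (fun a => (M l.1).B.deg a) (fun a => (M l.1).B.mem a) ((baseW T.W L).one_mem _) (h1 a)
    have h3 : (1 : (baseW T.W L).H (X l.1)) = 0 := by
      rw [← (M l.1).B.b.sum_repr 1]
      exact Finset.sum_eq_zero fun a _ => by rw [h2, zero_smul]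
    apply (M l.1).B.b.ne_zero l.2
    rw [← mul_one ((M l.1).B.b l.2), h3, mul_zero]
  obtain ⟨L0, hL0⟩ := exists_product (h := Hel2.wt M) (fun s => rank_le M hE s) hst hz l0
  refine ⟨l0.1, L0, fun G A hAG hA Z hZ i Lst J c hc hcG => ?_⟩
  exact two_arb hpos M σ₀ hAG (fun Rl hRl => algS_of_HG M hfix σ₀ hpos hA hRl)
    (fun Rl hRl => hL0 Z.dim Rl hRl) hZ i Lst hc hcG

end AH

variable {T : AHS.HodgeTheory ops}

/-- Absolutely Hodge classes are algebraic. -/
def AbsAlg {T : AHS.HodgeTheory ops} (D : Conjugates T) (Y : 𝒱.Obj) : Prop :=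
  ∀ (j : ℕ) (c : T.W.H Y), IsAbsHodge D Y j c → ∃ z : Y.Cycles, Y.IsCyc j z ∧ T.W.cl Y z = c

/-- The two forms of the conjecture. -/
lemma absAlg_iff (D : Conjugates T) (Y : 𝒱.Obj) :
    (predCl (AH.absPred (toD D))).C Y ≤ (algCl (toH T).W).C Y ↔ AbsAlg D Y := by
  constructor
  · intro h j c hc
    have h1 : c ∈ (predCl (AH.absPred (toD D))).C Y :=
      ClassPred.sp_of (Q := AH.absPred (toD D)) (j := j) hc
    exact exists_cycle T.rat (spanCycles_of_algSpan (h h1) hc.1.1)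
  · intro h
    refine Submodule.span_le.2 ?_
    rintro c ⟨j, hc⟩
    obtain ⟨z, hz, hz'⟩ := h j c hc
    rw [← hz']
    exact cl_mem_algSpan hz

theorem absAlg_main' [Nonempty I] (D : Conjugates T) (hpos : NonnegTypes T) (hX : ∀ i, IsCM T (X i))
    {R : ℕ} (hR : HodgeGroupDimLe T X R)
    (h : ∀ i L, (∃ F : Finset I, F.card ≤ R + 1 ∧ ∀ j ∈ i :: L, j ∈ F) →
      HodgeConj T (Hel2.prodOf X i L)) :
    ∃ (i0 : I) (L0 : List I), ∀ Z : 𝒱.Obj,
      AbsAlg D (Z.prod (Arb.powerOf X i0 L0 Z.dim)) ↔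
        ∀ i L, AbsAlg D (Z.prod (Hel2.prodOf X i L)) := by
  have hall : ∀ i L, HG (T := toH T) (algCl (toH T).W) (Hel.prodOf X i L) := by
    intro i L
    rw [← prodOf_eq]
    exact (hg_iff _).2 (hodge_red hpos hX hR (m := ⊤) (Or.inl rfl) (fun i L hL => h i L hL.1) i L)
  choose f hf hgr hpq using hX
  obtain ⟨E, z, hE⟩ := hR
  obtain ⟨i0, L0, h1⟩ := exists_uniT (T := toH T) (X := X) hpos (f := f) hf hgr hpq
    (R := R) (E := E) (z := z) (fun i p q x hx => hE i p q x hx)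
  refine ⟨i0, L0, fun Z => ⟨fun hD i L => ?_, fun hD => hD _ _⟩⟩
  rw [prodOf_eq]
  rw [powerOf_eq] at hD
  have hAG : ∀ Y, (algCl (toH T).W).C Y ≤ (predCl (AH.absPred (toD D))).C Y := by
    intro Y c hc
    refine Pool.Agent.W536.RR.algSpan_induction
      (p := fun c => c ∈ (predCl (AH.absPred (toD D))).C Y) (Submodule.zero_mem _)
      (fun _ _ => Submodule.add_mem _) (fun _ _ => Submodule.smul_mem _ _)
      (fun j w hw => ?_) hc
    exact ClassPred.sp_of (Q := AH.absPred (toD D)) ((AH.absPred (toD D)).cl hw)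
  refine (absAlg_iff D _).1 (Submodule.span_le.2 ?_)
  rintro c ⟨j, hc⟩
  exact h1 _ _ hAG hall Z ((absAlg_iff D _).2 hD) i L j c hc.1
    (ClassPred.sp_of (Q := AH.absPred (toD D)) hc)

lemma prodOf_eq' (X : I → 𝒱.Obj) : ∀ (i : I) (L : List I), Two.prodOf X i L = Hel2.prodOf X i L
  | i, [] => rfl
  | i, j :: L => by
    rw [Two.prodOf, Hel2.prodOf, prodOf_eq' X j L]

lemma absAlg_main'' [Nonempty I] (D : Conjugates T) (hpos : NonnegTypes T)
    (hX : ∀ i, IsCM T (X i)) {R : ℕ} (hR : HodgeGroupDimLe T X R) (F : I → List I → 𝒱.Obj)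
    (hF : F = Hel2.prodOf X)
    (h : ∀ i L, (∃ F : Finset I, F.card ≤ R + 1 ∧ ∀ j ∈ i :: L, j ∈ F) →
      AllAlg (IsHodge T (F i L))) :
    ∃ (i0 : I) (L0 : List I), ∀ Z : 𝒱.Obj,
      AllAlg (IsAbsHodge D (Z.prod (F i0 (L0 ++ (List.replicate (Z.dim - 1) (i0 :: L0)).flatten)))) ↔
        ∀ i L, AllAlg (IsAbsHodge D (Z.prod (F i L))) := by
  subst hF
  exact absAlg_main' D hpos hX hR h

/-- **Algebraicity of absolutely Hodge classes with an arbitrary factor.** -/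
theorem absAlg_main [Nonempty I] (D : Conjugates T) (hpos : NonnegTypes T) (hX : ∀ i, IsCM T (X i))
    {R : ℕ} (hR : Two.HgDimLe T X R)
    (h : ∀ i L, (∃ F : Finset I, F.card ≤ R + 1 ∧ ∀ j ∈ i :: L, j ∈ F) →
      AllAlg (IsHodge T (Two.prodOf X i L))) :
    ∃ (i0 : I) (L0 : List I), ∀ Z : 𝒱.Obj,
      AllAlg (IsAbsHodge D (Z.prod (Two.powerOf X i0 L0 Z.dim))) ↔
        ∀ i L, AllAlg (IsAbsHodge D (Z.prod (Two.prodOf X i L))) :=
  absAlg_main'' D hpos hX (show Hel2.HodgeGroupDimLe T X R from hR) (Two.prodOf X)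
    (funext fun i => funext fun L => prodOf_eq' X i L) h

end Pool.Agent.R936.Two
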